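import Pool.Agent.ZGO.StmtsB

/-!
# Row PER of the squad ZGO (helper84): periodicity
-/

set_option autoImplicit false

open scoped BigOperators

namespace Pool.Agent.ZGO.H84

section
variable {P : Type} [Group P] {ψ : P →* P} {X : Type} [AddCommGroup X] {θ : X →+ X}
  {ρ : P →* AddMonoid.End X}

/-- the action is well defined through `θ^[j]` -/
lemma key (hS : Simp ψ θ ρ) (j : ℕ) (g : P) (y y' : X) (h : (⇑θ)^[j] y = (⇑θ)^[j] y') :
    (⇑θ)^[j] (ρ g y) = (⇑θ)^[j] (ρ g y') := by
  have h1 : (⇑θ)^[j] (y - y') = 0 := by rw [iterate_map_sub, h, sub_self]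
  have h2 := hS.shf.ker g j _ h1
  rw [map_sub, iterate_map_sub] at h2
  exact sub_eq_zero.1 h2

/-- a section of `θ^[j]` -/
noncomputable def sec (hS : Simp ψ θ ρ) (j : ℕ) : X → X := Function.surjInv (hS.sur.iterate j)

lemma sec_spec (hS : Simp ψ θ ρ) (j : ℕ) (z : X) : (⇑θ)^[j] (sec hS j z) = z :=
  Function.surjInv_eq (hS.sur.iterate j) z

/-- the action of `P` on the layer `i + j` seen through `θ^[j]` -/
noncomputable def rj (hS : Simp ψ θ ρ) (i j : ℕ) :
    P →* Function.End {x : X // (⇑θ)^[i] x = 0} where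
  toFun g := fun z => ⟨(⇑θ)^[j] (ρ g (sec hS j z.1)), by
    rw [← Function.iterate_add_apply]
    refine hS.shf.ker g (i + j) _ ?_
    rw [Function.iterate_add_apply, sec_spec, z.2]⟩
  map_one' := by
    funext z
    apply Subtype.ext
    show (⇑θ)^[j] (ρ 1 (sec hS j z.1)) = z.1
    rw [map_one]
    exact sec_spec hS j z.1
  map_mul' := by
    intro g h
    funext z
    apply Subtype.ext
    show (⇑θ)^[j] (ρ (g * h) (sec hS j z.1)) =
      (⇑θ)^[j] (ρ g (sec hS j ((⇑θ)^[j] (ρ h (sec hS j z.1)))))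
    rw [map_mul]
    exact key hS j g _ _ (sec_spec hS j _).symm

lemma rj_apply (hS : Simp ψ θ ρ) (i j : ℕ) (g : P) (z : {x : X // (⇑θ)^[i] x = 0}) (y : X)
    (hy : (⇑θ)^[j] y = z.1) : (rj hS i j g z).1 = (⇑θ)^[j] (ρ g y) := by
  show (⇑θ)^[j] (ρ g (sec hS j z.1)) = (⇑θ)^[j] (ρ g y)
  exact key hS j g _ _ ((sec_spec hS j z.1).trans hy.symm)

lemma rj_succ (hS : Simp ψ θ ρ) (i j : ℕ) : (rj hS i (j + 1)).comp ψ = rj hS i j := by
  ext g
  funext z
  apply Subtype.ext
  have h1 : (⇑θ)^[j + 1] (sec hS (j + 1) z.1) = z.1 := sec_spec hS (j + 1) z.1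
  have h2 : (⇑θ)^[j] (θ (sec hS (j + 1) z.1)) = z.1 := h1
  show (rj hS i (j + 1) (ψ g) z).1 = (rj hS i j g z).1
  rw [rj_apply hS i (j + 1) (ψ g) z _ h1, rj_apply hS i j g z _ h2, Function.iterate_succ_apply,
    hS.shf.eqv]

end

/-- finitely many homomorphisms from a finitely generated group to a finite monoid -/
lemma finite_hom (P : Type) [Group P] [Group.FG P] (M : Type) [Monoid M] [Finite M] :
    Finite (P →* M) := by
  obtain ⟨S, hS⟩ := (Group.fg_def.1 (inferInstance : Group.FG P))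
  refine Finite.of_injective (β := S → M) (fun f s => f s) ?_
  intro f g h
  refine MonoidHom.eq_of_eqOn_dense hS ?_
  intro s hs
  exact congrFun h ⟨s, hs⟩

/-- a selfmap of a finite set has an idempotent iterate -/
lemma idem (R : Type) [Finite R] (T : R → R) : ∃ e : ℕ, 1 ≤ e ∧ ∀ r, T^[e] (T^[e] r) = T^[e] r := by
  obtain ⟨a, b, hab, h⟩ := Finite.exists_ne_map_eq_of_infinite (fun n : ℕ => T^[n])
  wlog hlt : a < b generalizing a b with H
  · exact H b a (Ne.symm hab) h.symm (by omega)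
  obtain ⟨d, rfl⟩ := Nat.exists_eq_add_of_lt hlt
  have h1 : ∀ n r, a ≤ n → T^[n + (d + 1)] r = T^[n] r := by
    intro n r hn
    obtain ⟨m, rfl⟩ := Nat.exists_eq_add_of_le hn
    have h2 : T^[a] = T^[a + d + 1] := h
    rw [show a + m + (d + 1) = m + (a + d + 1) by ring, Function.iterate_add_apply, ← h2,
      ← Function.iterate_add_apply, add_comm m a]
  have h2 : ∀ k n r, a ≤ n → T^[n + k * (d + 1)] r = T^[n] r := by
    intro k
    induction k with
    | zero => intro n r _; simp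
    | succ k ih =>
      intro n r hn
      rw [show n + (k + 1) * (d + 1) = (n + k * (d + 1)) + (d + 1) by ring,
        h1 _ r (by omega), ih n r hn]
  refine ⟨(a + 1) * (d + 1), Nat.one_le_iff_ne_zero.2 (by positivity), fun r => ?_⟩
  rw [← Function.iterate_add_apply]
  exact h2 (a + 1) _ r (by nlinarith)

theorem per (hfnk : FnkStmt) : PerStmt := by
  intro P _ _ ψ X _ θ ρ hS i
  have hfin : {x : X | (⇑θ)^[i] x = 0}.Finite := (hfnk P ψ X θ ρ hS.shf).1 i
  have hZ : Finite {x : X // (⇑θ)^[i] x = 0} := hfin.to_subtype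
  have hM : Finite (Function.End {x : X // (⇑θ)^[i] x = 0}) := by
    show Finite ({x : X // (⇑θ)^[i] x = 0} → {x : X // (⇑θ)^[i] x = 0})
    infer_instance
  have hR : Finite (P →* Function.End {x : X // (⇑θ)^[i] x = 0}) := finite_hom P _
  let T : (P →* Function.End {x : X // (⇑θ)^[i] x = 0}) →
    (P →* Function.End {x : X // (⇑θ)^[i] x = 0}) := fun r => r.comp ψ
  obtain ⟨e, he, hT⟩ := idem _ T
  refine ⟨e, he, fun g j x hx => ?_⟩
  have h1 : ∀ n j, T^[n] (rj hS i (j + n)) = rj hS i j := by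
    intro n
    induction n with
    | zero => intro j; rfl
    | succ n ih =>
      intro j
      rw [Function.iterate_succ_apply]
      have : T (rj hS i (j + (n + 1))) = rj hS i (j + n) := rj_succ hS i (j + n)
      rw [this, ih]
  have h2 : T^[e] (rj hS i j) = rj hS i j := by
    rw [← h1 e j, hT]
  have h3 : ∀ n (r : P →* Function.End {x : X // (⇑θ)^[i] x = 0}) (g : P),
      (T^[n] r) g = r ((⇑ψ)^[n] g) := by
    intro n
    induction n with
    | zero => intro r g; rfl
    | succ n ih =>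
      intro r g
      rw [Function.iterate_succ_apply, ih, Function.iterate_succ_apply']
      rfl
  have hz : (⇑θ)^[i] ((⇑θ)^[j] x) = 0 := by rw [← Function.iterate_add_apply, hx]
  have h4 : rj hS i j ((⇑ψ)^[e] g) = rj hS i j g := by rw [← h3 e (rj hS i j) g, h2]
  have h5 := congrArg Subtype.val (congrFun h4 ⟨(⇑θ)^[j] x, hz⟩)
  rw [rj_apply hS i j _ ⟨(⇑θ)^[j] x, hz⟩ x rfl, rj_apply hS i j _ ⟨(⇑θ)^[j] x, hz⟩ x rfl] at h5
  rw [iterate_map_sub, h5, sub_self]

end Pool.Agent.ZGO.H84
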